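import Pool.Agent.Q282.UZ.Sys

/-!
# Formal periods: definitions
-/

set_option autoImplicit false

open CategoryTheory AlgebraicGeometry Pool.Agent.Y116.UV Pool.Agent.Q282.UZ

namespace Pool.Agent.V5helper77.KP

/-! ### Pairs and triples -/

section pairs

variable (K : Type) [Field K]

/-- A variety `X` over `K` (separated, of finite type) with a closed subvariety `Y`. -/
structure Pair where
  X : Sch K
  Y : Sch K
  ι : Y ⟶ X
  closed : IsClosedImmersion ι.left
  ft : FT True X

variable {K}

/-- A morphism `f : X ⟶ X'` which maps `Y` into `Y'`. -/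
structure Pair.Map (P Q : Pair K) where
  f : P.X ⟶ Q.X
  g : P.Y ⟶ Q.Y
  comm : P.ι ≫ f = g ≫ Q.ι

/-- the identity -/
noncomputable def Pair.Map.id (P : Pair K) : Pair.Map P P := ⟨𝟙 _, 𝟙 _, by simp⟩

/-- composition -/
noncomputable def Pair.Map.comp {P Q S : Pair K} (a : Pair.Map P Q) (b : Pair.Map Q S) : Pair.Map P S :=
  ⟨a.f ≫ b.f, a.g ≫ b.g, by rw [← Category.assoc, a.comm, Category.assoc, b.comm, Category.assoc]⟩

variable (K) in
/-- Closed subvarieties `Z ⊆ Y ⊆ X`. -/
structure Triple where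
  X : Sch K
  Y : Sch K
  Z : Sch K
  j : Y ⟶ X
  i : Z ⟶ Y
  closed_j : IsClosedImmersion j.left
  closed_i : IsClosedImmersion i.left
  ftX : FT True X
  ftY : FT True Y

/-- the pair `(Y, Z)` -/
def Triple.low (T : Triple K) : Pair K := ⟨T.Y, T.Z, T.i, T.closed_i, T.ftY⟩

/-- the pair `(X, Y)` -/
def Triple.up (T : Triple K) : Pair K := ⟨T.X, T.Y, T.j, T.closed_j, T.ftX⟩

end pairs

/-! ### Cohomology and homology of pairs -/

/-- Algebraic de Rham cohomology `dR i (X, Y) = H^i_dR(X, Y)` and singular homology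
`sg i (X, Y) = H_i(X, Y; ℚ)` of the pairs over `K` (an algebraic closure of `ℚ`, embedded in `ℂ`), with the
integration pairing, the functoriality `pull = f^*`, `push = f_*`, and the connecting maps `bd = ∂`,
`db = δ` of the triples `Z ⊆ Y ⊆ X`. -/
structure Theory (K : Type) [Field K] where
  dR : ℤ → Pair K → Type
  sg : ℤ → Pair K → Type
  grD : ∀ (i : ℤ) (P : Pair K), AddCommGroup (dR i P)
  moD : ∀ (i : ℤ) (P : Pair K), Module K (dR i P)
  grS : ∀ (i : ℤ) (P : Pair K), AddCommGroup (sg i P)
  moS : ∀ (i : ℤ) (P : Pair K), Module ℚ (sg i P)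
  int : ∀ {i : ℤ} {P : Pair K}, dR i P → sg i P → ℂ
  pull : ∀ {P Q : Pair K} (_ : Pair.Map P Q) (i : ℤ), dR i Q → dR i P
  push : ∀ {P Q : Pair K} (_ : Pair.Map P Q) (i : ℤ), sg i P → sg i Q
  bd : ∀ (T : Triple K) (i : ℤ), dR i T.low → dR (i + 1) T.up
  db : ∀ (T : Triple K) (i : ℤ), sg (i + 1) T.up → sg i T.low

attribute [instance] Theory.grD Theory.moD Theory.grS Theory.moS

section formal

variable {K : Type} [Field K] (D : Theory K)

/-- The symbols `(X, Y, i, ω, σ)`. -/
structure Symbol where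
  i : ℤ
  P : Pair K
  ω : D.dR i P
  σ : D.sg i P

/-- The relations `s = s'`: functoriality and boundaries. -/
inductive RelEq : Symbol D → Symbol D → Prop
  | map {P Q : Pair K} (f : Pair.Map P Q) (i : ℤ) (ω : D.dR i Q) (σ : D.sg i P) :
      RelEq ⟨i, Q, ω, D.push f i σ⟩ ⟨i, P, D.pull f i ω, σ⟩
  | boundary (T : Triple K) (i : ℤ) (ω : D.dR i T.low) (σ : D.sg (i + 1) T.up) :
      RelEq ⟨i, T.low, ω, D.db T i σ⟩ ⟨i + 1, T.up, D.bd T i ω, σ⟩

/-- The relations `s = s' + s''`. -/
inductive RelAdd : Symbol D → Symbol D → Symbol D → Prop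
  | left (i : ℤ) (P : Pair K) (ω ω' : D.dR i P) (σ : D.sg i P) :
      RelAdd ⟨i, P, ω + ω', σ⟩ ⟨i, P, ω, σ⟩ ⟨i, P, ω', σ⟩
  | right (i : ℤ) (P : Pair K) (ω : D.dR i P) (σ σ' : D.sg i P) :
      RelAdd ⟨i, P, ω, σ + σ'⟩ ⟨i, P, ω, σ⟩ ⟨i, P, ω, σ'⟩

/-- The relations `s = q s'`. -/
inductive RelMul [Algebra ℚ K] : ℚ → Symbol D → Symbol D → Prop
  | left (i : ℤ) (P : Pair K) (q : ℚ) (ω : D.dR i P) (σ : D.sg i P) :
      RelMul q ⟨i, P, algebraMap ℚ K q • ω, σ⟩ ⟨i, P, ω, σ⟩
  | right (i : ℤ) (P : Pair K) (q : ℚ) (ω : D.dR i P) (σ : D.sg i P) :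
      RelMul q ⟨i, P, ω, q • σ⟩ ⟨i, P, ω, σ⟩

/-- The generator of the free vector space. -/
noncomputable def gen (s : Symbol D) : Symbol D →₀ ℚ := Finsupp.single s 1

/-- The relations of the formal periods: bilinearity, functoriality, boundaries. -/
inductive Rel [Algebra ℚ K] : (Symbol D →₀ ℚ) → Prop
  | eq {s s' : Symbol D} (h : RelEq D s s') : Rel (gen D s - gen D s')
  | add {s s' s'' : Symbol D} (h : RelAdd D s s' s'') : Rel (gen D s - (gen D s' + gen D s''))
  | mul {q : ℚ} {s s' : Symbol D} (h : RelMul D q s s') : Rel (gen D s - q • gen D s')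

/-- The space of the formal effective periods. -/
def Peff [Algebra ℚ K] : Type 1 := (Symbol D →₀ ℚ) ⧸ Submodule.span ℚ {x | Rel D x}

variable [Algebra ℚ K]

noncomputable instance : AddCommGroup (Peff D) :=
  Submodule.Quotient.addCommGroup (Submodule.span ℚ {x | Rel D x})

noncomputable instance : Module ℚ (Peff D) :=
  Submodule.Quotient.module (Submodule.span ℚ {x | Rel D x})

/-- the class of a linear combination of symbols -/
noncomputable def clsL : (Symbol D →₀ ℚ) →ₗ[ℚ] Peff D := Submodule.mkQ _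

/-- the class of a symbol -/
noncomputable def cls (s : Symbol D) : Peff D := clsL D (gen D s)

/-- `ev` is the evaluation map `(X, Y, i, ω, σ) ↦ ∫_σ ω`. -/
def IsEv (ev : Peff D →ₗ[ℚ] ℂ) : Prop := ∀ s : Symbol D, ev (cls D s) = D.int s.ω s.σ

end formal

/-! ### Affine pairs -/

section affine

variable {K : Type} [Field K] {A B : Type} [CommRing A] [CommRing B] [Algebra K A] [Algebra K B]

/-- The affine pair `(Spec A, Spec B)` for a surjection `A → B` of algebras of finite type. -/
noncomputable def apair [Algebra.FiniteType K A] (p : A →ₐ[K] B) (hp : Function.Surjective p) :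
    Pair K :=
  ⟨aff K A, aff K B, affMap p, closed_affMap p hp, ft_aff True⟩

/-- the homomorphism to the zero ring -/
noncomputable def toZero (K A : Type) [Field K] [CommRing A] [Algebra K A] : A →ₐ[K] PUnit.{1} where
  toFun _ := PUnit.unit
  map_one' := rfl
  map_mul' _ _ := rfl
  map_zero' := rfl
  map_add' _ _ := rfl
  commutes' _ := rfl

lemma toZero_surj (K A : Type) [Field K] [CommRing A] [Algebra K A] :
    Function.Surjective (toZero K A) := fun _ => ⟨0, rfl⟩

/-- The pair `(Spec A, ∅)`. -/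
noncomputable def absol (K A : Type) [Field K] [CommRing A] [Algebra K A] [Algebra.FiniteType K A] :
    Pair K :=
  apair (toZero K A) (toZero_surj K A)

variable {A' B' : Type} [CommRing A'] [CommRing B'] [Algebra K A'] [Algebra K B']

/-- The morphism of affine pairs given by homomorphisms `a : A' → A`, `b : B' → B`. -/
noncomputable def amap [Algebra.FiniteType K A] [Algebra.FiniteType K A'] {p : A →ₐ[K] B}
    {hp : Function.Surjective p} {p' : A' →ₐ[K] B'} {hp' : Function.Surjective p'} (a : A' →ₐ[K] A)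
    (b : B' →ₐ[K] B) (h : p.comp a = b.comp p') : Pair.Map (apair p hp) (apair p' hp') :=
  ⟨affMap a, affMap b, by
    change affMap p ≫ affMap a = affMap b ≫ affMap p'
    rw [← affMap_comp, ← affMap_comp, h]⟩

/-- The morphism `(Spec A, ∅) ⟶ (Spec A', ∅)` given by `a : A' → A`. -/
noncomputable def abs' [Algebra.FiniteType K A] [Algebra.FiniteType K A'] (a : A' →ₐ[K] A) :
    Pair.Map (absol K A) (absol K A') :=
  amap a (AlgHom.id K _) (by ext)

/-- The morphism `(Spec A, ∅) ⟶ (Spec A, Spec B)`. -/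
noncomputable def forget [Algebra.FiniteType K A] (p : A →ₐ[K] B) (hp : Function.Surjective p) :
    Pair.Map (absol K A) (apair p hp) :=
  amap (AlgHom.id K A) (toZero K B) (by ext)

/-- The triple `∅ ⊆ Spec B ⊆ Spec A`. -/
noncomputable def atriple [Algebra.FiniteType K A] [Algebra.FiniteType K B] (p : A →ₐ[K] B)
    (hp : Function.Surjective p) : Triple K :=
  ⟨aff K A, aff K B, aff K PUnit.{1}, affMap p, affMap (toZero K B), closed_affMap p hp,
    closed_affMap _ (toZero_surj K B), ft_aff True, ft_aff True⟩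

/-- the two end points of the interval: `f ↦ (f(0), f(1))` -/
noncomputable def ends (K A : Type) [Field K] [CommRing A] [Algebra K A] : Polynomial A →ₐ[K] A × A :=
  ((Polynomial.aeval (0 : A)).restrictScalars K).prod ((Polynomial.aeval (1 : A)).restrictScalars K)

lemma ends_surj (K A : Type) [Field K] [CommRing A] [Algebra K A] :
    Function.Surjective (ends K A) := by
  rintro ⟨a, b⟩
  refine ⟨Polynomial.C a + Polynomial.C (b - a) * Polynomial.X, ?_⟩
  change (Polynomial.aeval (0 : A) _, Polynomial.aeval (1 : A) _) = (a, b)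
  simp

end affine

/-! ### Properties -/

section props

variable {K : Type} [Field K] (D : Theory K)

/-- Singular homology is a functor. -/
structure Functorial : Prop where
  push_id : ∀ (P : Pair K) (i : ℤ) (σ : D.sg i P), D.push (Pair.Map.id P) i σ = σ
  push_comp : ∀ {P Q S : Pair K} (a : Pair.Map P Q) (b : Pair.Map Q S) (i : ℤ) (σ : D.sg i P),
    D.push (a.comp b) i σ = D.push b i (D.push a i σ)

/-- The class `x` belongs to a symbol of an affine pair. -/
def IsAffineClass [Algebra ℚ K] (x : Peff D) : Prop :=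
  ∃ (A B : Type) (_ : CommRing A) (_ : CommRing B) (_ : Algebra K A) (_ : Algebra K B)
    (_ : Algebra.FiniteType K A) (p : A →ₐ[K] B) (hp : Function.Surjective p) (i : ℤ)
    (ω : D.dR i (apair p hp)) (σ : D.sg i (apair p hp)), x = cls D ⟨i, apair p hp, ω, σ⟩

/-- The formal effective periods are generated by the symbols of affine pairs (a consequence of Nori's
basic lemma, or of Mayer-Vietoris sequences). -/
def AffineGenerated [Algebra ℚ K] : Prop :=
  ∀ s : Symbol D, cls D s ∈ Submodule.span ℚ {x | IsAffineClass D x}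

/-- If `Spec A` is the disjoint union of the open and closed subschemes `Spec A₁` and `Spec A₂`, then
`H^i_dR(Spec A) → H^i_dR(Spec A₁) × H^i_dR(Spec A₂)` is surjective. -/
def DisjointUnions : Prop :=
  ∀ {A A₁ A₂ : Type} [CommRing A] [CommRing A₁] [CommRing A₂] [Algebra K A]
    [Algebra K A₁] [Algebra K A₂] [Algebra.FiniteType K A] [Algebra.FiniteType K A₁]
    [Algebra.FiniteType K A₂] (p₁ : A →ₐ[K] A₁) (p₂ : A →ₐ[K] A₂), Function.Surjective p₁ →
    Function.Surjective p₂ → ∀ e : A, e * e = e → RingHom.ker p₁ = Ideal.span {e} →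
    RingHom.ker p₂ = Ideal.span {1 - e} → ∀ (i : ℤ) (ω₁ : D.dR i (absol K A₁))
    (ω₂ : D.dR i (absol K A₂)), ∃ ω : D.dR i (absol K A),
      D.pull (abs' p₁) i ω = ω₁ ∧ D.pull (abs' p₂) i ω = ω₂

/-- Excision: if `Spec R` is the union of the closed subschemes `Spec A` and `Spec C`, with the
intersection `Spec B`, then `H^i_dR(Spec R, Spec C) → H^i_dR(Spec A, Spec B)` is surjective. -/
def Excision : Prop :=
  ∀ {R A B C : Type} [CommRing R] [CommRing A] [CommRing B] [CommRing C] [Algebra K R]
    [Algebra K A] [Algebra K B] [Algebra K C] [Algebra.FiniteType K R] [Algebra.FiniteType K A]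
    (p₁ : R →ₐ[K] A) (p₂ : R →ₐ[K] C) (q₁ : A →ₐ[K] B) (q₂ : C →ₐ[K] B), Function.Surjective p₁ →
    ∀ (hp₂ : Function.Surjective p₂) (hq₁ : Function.Surjective q₁), Function.Surjective q₂ →
    ∀ h : q₁.comp p₁ = q₂.comp p₂, RingHom.ker p₁ ⊓ RingHom.ker p₂ = ⊥ →
    RingHom.ker (q₁.comp p₁) = RingHom.ker p₁ ⊔ RingHom.ker p₂ → ∀ i : ℤ,
      Function.Surjective (D.pull (amap (hp := hq₁) (hp' := hp₂) p₁ q₂ h) i)

/-- If an affine space `E` is a closed subscheme of `X = Spec R`, then `H_i(X) → H_i(X, E)` is surjective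
(`E(ℂ)` is contractible). -/
def ContractibleSpaces : Prop :=
  ∀ {R : Type} [CommRing R] [Algebra K R] [Algebra.FiniteType K R] (N : ℕ)
    (p : R →ₐ[K] MvPolynomial (Fin N) K) (hp : Function.Surjective p) (i : ℤ),
      Function.Surjective (D.push (forget p hp) i)

/-- For a class `σ` in `H_i(X)`, `X = Spec A`, there is a class in `H_(i+1)(X × 𝔸¹, X × {0, 1})` (the
product with the interval) with the boundary `σ × {1} - σ × {0}`. -/
def Intervals : Prop :=
  ∀ (A : Type) [CommRing A] [Algebra K A] [Algebra.FiniteType K A] (i : ℤ)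
    (σ : D.sg i (absol K A)), ∃ τ : D.sg (i + 1) (atriple (ends K A) (ends_surj K A)).up,
      D.db (atriple (ends K A) (ends_surj K A)) i τ =
        (D.push (abs' (AlgHom.snd K A A)) i σ - D.push (abs' (AlgHom.fst K A A)) i σ :
          D.sg i (absol K (A × A)))

/-- The geometric properties of the cohomology of pairs which are used. -/
structure IsGeometric [Algebra ℚ K] : Prop where
  functorial : Functorial D
  affine : AffineGenerated D
  disjoint : DisjointUnions D
  excision : Excision D
  contractible : ContractibleSpaces D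
  interval : Intervals D

variable [Algebra ℚ K] (ev : Peff D →ₗ[ℚ] ℂ) (m : Peff D → Peff D → Peff D) (t : Peff D)

/-- `t` is the class of a symbol of the pair `(𝔾_m, {1})` of degree `1` with the value `2 π i`. -/
def IsTwoPiI : Prop :=
  ∃ (p : LaurentPolynomial K →ₐ[K] K) (hp : Function.Surjective p)
    (ω : D.dR 1 (apair p hp)) (σ : D.sg 1 (apair p hp)), p (LaurentPolynomial.T 1) = 1 ∧
      t = cls D ⟨1, apair p hp, ω, σ⟩ ∧ ev t = 2 * Real.pi * Complex.I

/-- the ring of `X × 𝔾_m`, `X = Spec A` -/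
def Lau (A : Type) [CommRing A] : Type := LaurentPolynomial A

noncomputable instance (A : Type) [CommRing A] : CommRing (Lau A) :=
  AddMonoidAlgebra.commRing (R := A) (M := ℤ)

noncomputable instance (A : Type) [CommRing A] [Algebra K A] : Algebra K (Lau A) :=
  AddMonoidAlgebra.algebra (R := K) (A := A) (M := ℤ)

/-- Künneth: the product of `t` and a symbol of `(X, ∅)`, `X = Spec A`, is a symbol of `(X × 𝔾_m, ∅)` (the
external product of the classes). -/
def Kunneth : Prop :=
  ∀ (A : Type) [CommRing A] [Algebra K A] [Algebra.FiniteType K A]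
    [Algebra.FiniteType K (Lau A)] (i : ℤ) (ω : D.dR i (absol K A))
    (σ : D.sg i (absol K A)), ∃ (ω' : D.dR (i + 1) (absol K (Lau A)))
      (σ' : D.sg (i + 1) (absol K (Lau A))),
      m t (cls D ⟨i, absol K A, ω, σ⟩) = cls D ⟨i + 1, absol K (Lau A), ω', σ'⟩

/-- The (biadditive) product `m` of formal periods, and the class `t` of `(𝔾_m, {1}, 1, dz/z, S¹)` (this is
`2 π i`); evaluation is multiplicative. -/
structure IsProduct : Prop where
  add_left : ∀ x y z : Peff D, m (x + y) z = m x z + m y z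
  add_right : ∀ x y z : Peff D, m x (y + z) = m x y + m x z
  gm : IsTwoPiI D ev t
  ev_mul : ∀ x y : Peff D, ev (m x y) = ev x * ev y
  kunneth : Kunneth D m t

/-- The formal effective period `x` is zero in the algebra `P̃ = P̃^eff[t⁻¹]` of formal periods. -/
def Vanishes (x : Peff D) : Prop := ∃ N : ℕ, (m t)^[N] x = 0

/-- **Q1**, Kontsevich's period conjecture: the evaluation map of the formal periods is injective. -/
def PeriodConjecture : Prop := ∀ x : Peff D, ev x = 0 → Vanishes D m t x

end props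

/-! ### Bilinear systems -/

section bil

variable (K : Type) [Field K] {a b c : ℕ} (E : Fin c → Finset (Fin a × Fin b)) (i₀ : Fin a)
  (j₀ : Fin b)

/-- the ideal of the equations -/
noncomputable def eqIdeal : Ideal (MvPolynomial (Fin a ⊕ Fin b) K) :=
  Ideal.span (Set.range fun l => few K (E l))

/-- The ring of the bilinear equations `∑_{(i, j) ∈ E_l} x_i y_j = 0`, `l = 1, …, c`. -/
def Sys : Type := MvPolynomial (Fin a ⊕ Fin b) K ⧸ eqIdeal K E

noncomputable instance : CommRing (Sys K E) := Ideal.Quotient.commRing (eqIdeal K E)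

noncomputable instance : Algebra K (Sys K E) := Ideal.instAlgebraQuotient K (eqIdeal K E)

/-- the function `x_(i₀) y_(j₀)` -/
noncomputable def xy : Sys K E := Ideal.Quotient.mk (eqIdeal K E)
  (MvPolynomial.X (Sum.inl i₀) * MvPolynomial.X (Sum.inr j₀))

/-- The ring of the variety `V` given by the bilinear equations `∑_{(i, j) ∈ E_l} x_i y_j = 0`,
`l = 1, …, c`, and `x_(i₀) y_(j₀) ≠ 0`. -/
def Bil : Type := Localization.Away (xy K E i₀ j₀)

noncomputable instance : CommRing (Bil K E i₀ j₀) :=
  OreLocalization.instCommRing (R := Sys K E) (S := Submonoid.powers (xy K E i₀ j₀))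

noncomputable instance : Algebra K (Bil K E i₀ j₀) :=
  OreLocalization.instAlgebra (R := Sys K E) (S := Submonoid.powers (xy K E i₀ j₀))

instance ftBil : Algebra.FiniteType K (Bil K E i₀ j₀) := by
  have h : Algebra.FiniteType K (Sys K E) := inferInstanceAs (Algebra.FiniteType K
    (MvPolynomial (Fin a ⊕ Fin b) K ⧸ eqIdeal K E))
  have h2 : Algebra.FiniteType K (Localization.Away (xy K E i₀ j₀)) :=
    Algebra.FiniteType.trans (S := Sys K E) inferInstance inferInstance
  exact h2

/-- The pair `(V, ∅)` for the variety `V` given by the bilinear equations `∑_{(i, j) ∈ E_l} x_i y_j = 0`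
and the inequality `x_(i₀) y_(j₀) ≠ 0`. -/
noncomputable def bilPair : Pair K := absol K (Bil K E i₀ j₀)

end bil

end Pool.Agent.V5helper77.KP
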