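import Pool.Agent.V5helper77.OP.Short

/-!
# Descent of affine algebras over an algebraic field extension of `ℚ` to the integers
-/

set_option autoImplicit false

open MvPolynomial Pool.Agent.Y116.UV Pool.Agent.Q282.UZ Pool.Agent.V5helper77.OP

namespace Pool.Agent.V5helper77.KP

/-- an integral polynomial with the simple zero `c` -/
lemma simple_zero {K : Type} [Field K] [Algebra ℚ K] [Algebra.IsAlgebraic ℚ K] (c : K) :
    ∃ q : Polynomial ℤ, q.eval₂ (Int.castRingHom K) c = 0 ∧
      q.derivative.eval₂ (Int.castRingHom K) c ≠ 0 := by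
  have hc : IsIntegral ℚ c := Algebra.IsIntegral.isIntegral c
  obtain ⟨b, hb, h⟩ := IsLocalization.integerNormalization_spec (nonZeroDivisors ℤ) (minpoly ℚ c)
  have hb0 : b ≠ 0 := nonZeroDivisors.ne_zero hb
  have hb1 : ((b : ℚ) : ℚ) ≠ 0 := by exact_mod_cast hb0
  have hK : (algebraMap ℚ K).comp (algebraMap ℤ ℚ) = Int.castRingHom K := Subsingleton.elim _ _
  refine ⟨IsLocalization.integerNormalization (nonZeroDivisors ℤ) (minpoly ℚ c), ?_, ?_⟩
  · rw [← hK, ← Polynomial.eval₂_map, h, Algebra.smul_def, Polynomial.eval₂_mul]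
    change _ * Polynomial.aeval c (minpoly ℚ c) = 0
    rw [minpoly.aeval, mul_zero]
  · rw [← hK, ← Polynomial.eval₂_map, ← Polynomial.derivative_map, h]
    have h2 : (b • minpoly ℚ c) = Polynomial.C (b : ℚ) * minpoly ℚ c := by
      rw [← Polynomial.smul_eq_C_mul, ← Int.cast_smul_eq_zsmul ℚ]
    rw [h2, Polynomial.derivative_C_mul, Polynomial.eval₂_mul, Polynomial.eval₂_C]
    apply mul_ne_zero
    · rw [Ne, map_eq_zero]
      exact hb1
    · exact (minpoly.irreducible hc).separable.aeval_derivative_ne_zero (minpoly.aeval ℚ c)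

lemma eval₂_int {A B : Type} [CommRing A] [CommRing B] (f : A →+* B) (s : A) (q : Polynomial ℤ) :
    f (q.eval₂ (Int.castRingHom A) s) = q.eval₂ (Int.castRingHom B) (f s) := by
  rw [Polynomial.hom_eval₂]
  congr 1
  exact Subsingleton.elim _ _

lemma square {K A : Type} [Field K] [CommRing A] [Algebra K A] (q : Polynomial ℤ) (c : K)
    (h0 : q.eval₂ (Int.castRingHom K) c = 0) (h1 : q.derivative.eval₂ (Int.castRingHom K) c ≠ 0)
    (s : A) (hs : q.eval₂ (Int.castRingHom A) s = 0) :
    ∃ k : A, s - algebraMap K A c = k * ((s - algebraMap K A c) * (s - algebraMap K A c)) := by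
  obtain ⟨k, hk⟩ := Polynomial.binomExpansion (q.map (Int.castRingHom A)) (algebraMap K A c)
    (s - algebraMap K A c)
  rw [add_sub_cancel, Polynomial.derivative_map, Polynomial.eval_map, Polynomial.eval_map,
    Polynomial.eval_map, hs, ← eval₂_int, ← eval₂_int, h0, map_zero, zero_add] at hk
  set d : K := q.derivative.eval₂ (Int.castRingHom K) c with hd
  refine ⟨-(algebraMap K A d⁻¹ * k), ?_⟩
  have h2 : algebraMap K A d⁻¹ * algebraMap K A d = 1 := by
    rw [← map_mul, inv_mul_cancel₀ h1, map_one]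
  linear_combination (-(algebraMap K A d⁻¹)) * hk - (s - algebraMap K A c) * h2

lemma idem {A : Type} [CommRing A] {C : Type} [Finite C] (y : C → A)
    (h : ∀ c, ∃ k, y c = k * (y c * y c)) :
    ∃ e, e * e = e ∧ Ideal.span (Set.range y) = Ideal.span {e} := by
  have hfg : (Ideal.span (Set.range y)).FG := Submodule.fg_span (Set.finite_range y)
  have hid : IsIdempotentElem (Ideal.span (Set.range y)) := by
    apply le_antisymm Ideal.mul_le_right
    rw [Ideal.span_le]
    rintro _ ⟨c, rfl⟩
    obtain ⟨k, hk⟩ := h c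
    have h4 : y c ∈ Ideal.span (Set.range y) := Ideal.subset_span ⟨c, rfl⟩
    rw [SetLike.mem_coe, hk]
    exact Ideal.mul_mem_left _ _ (Ideal.mul_mem_mul h4 h4)
  obtain ⟨e, he, hIe⟩ := (Ideal.isIdempotentElem_iff_of_fg _ hfg).mp hid
  exact ⟨e, he, hIe⟩

lemma ker_desc {R R' A : Type} [CommRing R] [CommRing R'] [CommRing A] (ρ : R →+* R')
    (hρ : Function.Surjective ρ) (π : R' →+* A) (J : Ideal R) (hJ : Ideal.map ρ J = RingHom.ker π) :
    RingHom.ker (π.comp ρ) = J ⊔ RingHom.ker ρ := by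
  rw [← RingHom.comap_ker, ← hJ, Ideal.comap_map_of_surjective' ρ hρ]

lemma ker_quot {R A : Type} [CommRing R] [CommRing A] (f : R →+* A) (J S : Ideal R)
    (h : RingHom.ker f = J ⊔ S) (H : ∀ a ∈ J, f a = 0) :
    RingHom.ker (Ideal.Quotient.lift J f H) = Ideal.map (Ideal.Quotient.mk J) S := by
  rw [Ideal.ker_quotient_lift, h, Ideal.map_sup, Ideal.map_quotient_self, bot_sup_eq]

section rho

variable {K : Type} [Field K] {n : ℕ} {C : Type} (c : C → K)

/-- the substitution of the constants `c` for the new variables -/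
noncomputable def rho : MvPolynomial (Fin n ⊕ C) K →ₐ[K] MvPolynomial (Fin n) K :=
  aeval (Sum.elim X fun i => MvPolynomial.C (c i))

lemma rho_inr (i : C) : rho (n := n) c (X (Sum.inr i)) = MvPolynomial.C (c i) := aeval_X _ _

lemma rho_rename (g : MvPolynomial (Fin n) K) : rho c (rename Sum.inl g) = g := by
  have : (rho c).comp (rename Sum.inl) = AlgHom.id K (MvPolynomial (Fin n) K) := by
    apply MvPolynomial.algHom_ext
    intro i
    rw [AlgHom.comp_apply, rename_X]
    exact aeval_X _ _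
  exact DFunLike.congr_fun this g

lemma rho_surj : Function.Surjective (rho (n := n) c) := fun g => ⟨_, rho_rename c g⟩

lemma ker_rho : RingHom.ker (rho (n := n) c) =
    Ideal.span (Set.range fun i => X (Sum.inr i) - MvPolynomial.C (c i)) := by
  apply le_antisymm
  · intro F hF
    set S : Ideal (MvPolynomial (Fin n ⊕ C) K) :=
      Ideal.span (Set.range fun i => X (Sum.inr i) - MvPolynomial.C (c i)) with hS
    have h : ((Ideal.Quotient.mkₐ K S).comp (rename Sum.inl)).comp (rho c) =
        Ideal.Quotient.mkₐ K S := by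
      apply MvPolynomial.algHom_ext
      rintro (i | i)
      · rw [AlgHom.comp_apply]
        have : rho c (X (Sum.inl i)) = X i := aeval_X _ _
        rw [this, AlgHom.comp_apply, rename_X]
      · rw [AlgHom.comp_apply, rho_inr, AlgHom.comp_apply, rename_C]
        change Ideal.Quotient.mk S _ = Ideal.Quotient.mk S _
        rw [eq_comm, Ideal.Quotient.eq]
        exact Ideal.subset_span ⟨i, rfl⟩
    have h2 : Ideal.Quotient.mkₐ K S F = 0 := by
      rw [← h, AlgHom.comp_apply]
      have : rho c F = 0 := hF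
      rw [this, map_zero]
    exact Ideal.Quotient.eq_zero_iff_mem.mp h2
  · rw [Ideal.span_le]
    rintro _ ⟨i, rfl⟩
    change rho c (X (Sum.inr i) - MvPolynomial.C (c i)) = 0
    have h : rho (n := n) c (MvPolynomial.C (c i)) = MvPolynomial.C (c i) := (rho c).commutes (c i)
    rw [map_sub, rho_inr, h, sub_self]

end rho

/-- An algebra with a presentation by integral polynomials. -/
def IntPres (K A : Type) [Field K] [CommRing A] [Algebra K A] : Prop :=
  ∃ (V : Type) (_ : Finite V) (π : MvPolynomial V K →ₐ[K] A) (T : Finset (MvPolynomial V ℤ)),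
    Function.Surjective π ∧ RingHom.ker π = Ideal.span (map (Int.castRingHom K) '' T)

section

variable {K : Type} [Field K]

open Classical in
/-- the coefficients are replaced by variables -/
noncomputable def til {n : ℕ} (C : Finset K) (g : MvPolynomial (Fin n) K) :
    MvPolynomial (Fin n ⊕ C) ℤ :=
  ∑ m ∈ g.support, (if h : coeff m g ∈ C then X (Sum.inr ⟨coeff m g, h⟩) else 0) *
    rename Sum.inl (monomial m 1)

lemma rho_til {n : ℕ} (C : Finset K) (g : MvPolynomial (Fin n) K)
    (h : ∀ m ∈ g.support, coeff m g ∈ C) :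
    rho (fun c : C => c.1) (map (Int.castRingHom K) (til C g)) = g := by
  rw [til, map_sum, map_sum]
  conv_rhs => rw [g.as_sum]
  apply Finset.sum_congr rfl
  intro m hm
  rw [dif_pos (h m hm), map_mul, map_mul, map_X, rho_inr, map_rename, rho_rename, map_monomial,
    map_one, C_mul_monomial, mul_one]

/-- the polynomial `q` in a new variable -/
noncomputable def qq {n : ℕ} {C : Type} (q : Polynomial ℤ) (i : C) : MvPolynomial (Fin n ⊕ C) ℤ :=
  q.eval₂ (Int.castRingHom (MvPolynomial (Fin n ⊕ C) ℤ)) (X (Sum.inr i))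

lemma map_qq {n : ℕ} {C : Type} (q : Polynomial ℤ) (i : C) :
    map (Int.castRingHom K) (qq (n := n) q i) =
      q.eval₂ (Int.castRingHom (MvPolynomial (Fin n ⊕ C) K)) (X (Sum.inr i)) := by
  rw [qq, eval₂_int, map_X]

lemma rho_qq {n : ℕ} {C : Type} (c : C → K) (q : Polynomial ℤ) (i : C)
    (h : q.eval₂ (Int.castRingHom K) (c i) = 0) :
    rho (n := n) c (map (Int.castRingHom K) (qq q i)) = 0 := by
  rw [map_qq]
  have h1 := eval₂_int (rho (n := n) c : MvPolynomial (Fin n ⊕ C) K →+* MvPolynomial (Fin n) K)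
    (X (Sum.inr i)) q
  have h2 : (rho (n := n) c : MvPolynomial (Fin n ⊕ C) K →+* MvPolynomial (Fin n) K)
    (X (Sum.inr i)) = MvPolynomial.C (c i) := rho_inr c i
  rw [h2, ← eval₂_int, h, map_zero] at h1
  exact h1

variable [Algebra ℚ K] [Algebra.IsAlgebraic ℚ K]

/-- Every affine scheme over `K` is open and closed in one which is defined over `ℤ`. -/
theorem descend (A : Type) [CommRing A] [Algebra K A] [Algebra.FiniteType K A] :
    ∃ (A' : Type) (_ : CommRing A') (_ : Algebra K A'), Algebra.FiniteType K A' ∧ IntPres K A' ∧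
      ∃ (p : A' →ₐ[K] A) (e : A'), Function.Surjective p ∧ e * e = e ∧
        RingHom.ker p = Ideal.span {e} := by
  classical
  obtain ⟨n, π, hπ⟩ := Algebra.FiniteType.iff_quotient_mvPolynomial''.mp
    (inferInstance : Algebra.FiniteType K A)
  obtain ⟨G, hG⟩ := (isNoetherianRing_iff_ideal_fg _).mp
    (inferInstance : IsNoetherianRing (MvPolynomial (Fin n) K)) (RingHom.ker π)
  choose q hq0 hq1 using simple_zero (K := K)
  obtain ⟨C, hC⟩ : ∃ C : Finset K, ∀ g ∈ G, ∀ m ∈ g.support, coeff m g ∈ C :=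
    ⟨G.biUnion fun g => g.support.image fun m => coeff m g, fun g hg m hm =>
      Finset.mem_biUnion.mpr ⟨g, hg, Finset.mem_image.mpr ⟨m, hm, rfl⟩⟩⟩
  obtain ⟨T, hT⟩ : ∃ T : Finset (MvPolynomial (Fin n ⊕ C) ℤ), ∀ t, t ∈ T ↔
      (∃ g ∈ G, til C g = t) ∨ ∃ c : C, qq (q c.1) c = t :=
    ⟨G.image (til C) ∪ Finset.univ.image (fun c : C => qq (q c.1) c), fun t => by
      simp only [Finset.mem_union, Finset.mem_image, Finset.mem_univ, true_and]⟩
  have hJ : Ideal.map (rho (n := n) fun c : C => c.1) (Ideal.span (map (Int.castRingHom K) '' T)) =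
      RingHom.ker π := by
    rw [Ideal.map_span, ← hG]
    apply le_antisymm
    · rw [Ideal.span_le]
      rintro _ ⟨_, ⟨t, ht, rfl⟩, rfl⟩
      rcases (hT t).mp ht with ⟨g, hg, rfl⟩ | ⟨c, rfl⟩
      · rw [rho_til C g (hC g hg)]
        exact Ideal.subset_span hg
      · rw [rho_qq _ _ _ (hq0 c.1)]
        exact Ideal.zero_mem _
    · rw [Submodule.span_le]
      intro g hg
      exact Ideal.subset_span ⟨_, ⟨til C g, (hT _).mpr (Or.inl ⟨g, hg, rfl⟩), rfl⟩,
        rho_til C g (hC g hg)⟩
  set J : Ideal (MvPolynomial (Fin n ⊕ C) K) := Ideal.span (map (Int.castRingHom K) '' T) with hJd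
  have k1 := ker_desc (rho (n := n) fun c : C => c.1).toRingHom (rho_surj _) π.toRingHom J hJ
  have hJ0 : ∀ a ∈ J, (π.comp (rho fun c : C => c.1)) a = 0 := by
    intro a ha
    have : a ∈ RingHom.ker (π.toRingHom.comp (rho (n := n) fun c : C => c.1).toRingHom) := by
      rw [k1]
      exact Ideal.mem_sup_left ha
    exact this
  have k2 : RingHom.ker (Ideal.Quotient.liftₐ J (π.comp (rho fun c : C => c.1)) hJ0) =
      Ideal.span (Set.range fun c : C => Ideal.Quotient.mk J (X (Sum.inr c)) -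
        algebraMap K (MvPolynomial (Fin n ⊕ C) K ⧸ J) c.1) := by
    have k3 := ker_quot _ J _ k1 hJ0
    have k4 : RingHom.ker (rho (n := n) fun c : C => c.1).toRingHom =
      Ideal.span (Set.range fun i : C => X (Sum.inr i) - MvPolynomial.C i.1) := ker_rho _
    rw [k4, Ideal.map_span, ← Set.range_comp] at k3
    exact k3
  obtain ⟨e, he, hIe⟩ := idem (fun c : C => Ideal.Quotient.mk J (X (Sum.inr c)) -
        algebraMap K (MvPolynomial (Fin n ⊕ C) K ⧸ J) c.1) (by
    intro c
    apply square (q c.1) c.1 (hq0 c.1) (hq1 c.1)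
    rw [← eval₂_int, ← map_qq, Ideal.Quotient.eq_zero_iff_mem]
    exact Ideal.subset_span ⟨_, (hT _).mpr (Or.inr ⟨c, rfl⟩), rfl⟩)
  refine ⟨MvPolynomial (Fin n ⊕ C) K ⧸ J, inferInstance, inferInstance, inferInstance,
    ⟨Fin n ⊕ C, inferInstance, Ideal.Quotient.mkₐ K J, T, Ideal.Quotient.mkₐ_surjective K J, ?_⟩,
    Ideal.Quotient.liftₐ J (π.comp (rho fun c : C => c.1)) hJ0, e, ?_, he, ?_⟩
  · exact Ideal.mk_ker
  · intro a
    obtain ⟨g, rfl⟩ := hπ a
    refine ⟨Ideal.Quotient.mk J (rename Sum.inl g), ?_⟩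
    change π (rho _ _) = _
    rw [rho_rename]
  · rw [k2, hIe]

end

end Pool.Agent.V5helper77.KP
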