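import Pool.Agent.V5helper77.KP.Red

/-!
# Kontsevich's period conjecture and bilinear systems
-/

set_option autoImplicit false

open CategoryTheory AlgebraicGeometry Pool.Agent.Y116.UV Pool.Agent.Q282.UZ

namespace Pool.Agent.V5helper77.KP

section main

variable {K : Type} [Field K] [Algebra ℚ K] {D : Theory K} (hD : IsGeometric D)

include hD

/-- Transport along an isomorphism. -/
lemma transport {A B : Type} [CommRing A] [CommRing B] [Algebra K A] [Algebra K B]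
    [Algebra.FiniteType K A] [Algebra.FiniteType K B] (e : B ≃ₐ[K] A) (i : ℤ)
    (ω : D.dR i (absol K A)) (σ : D.sg i (absol K A)) :
    ∃ (ω' : D.dR i (absol K B)) (σ' : D.sg i (absol K B)),
      cls D ⟨i, absol K A, ω, σ⟩ = cls D ⟨i, absol K B, ω', σ'⟩ := by
  have h : (abs' (e : B →ₐ[K] A)).comp (abs' (e.symm : A →ₐ[K] B)) = Pair.Map.id (absol K A) := by
    have h1 : affMap (e : B →ₐ[K] A) ≫ affMap (e.symm : A →ₐ[K] B) = 𝟙 _ := by
      rw [← affMap_comp, ← affMap_id]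
      congr 1
      ext x
      exact e.apply_symm_apply x
    have h2 : affMap (AlgHom.id K PUnit.{1}) ≫ affMap (AlgHom.id K PUnit.{1}) = 𝟙 _ := by
      rw [← affMap_comp, ← affMap_id]
      rfl
    have h3 : ((abs' (e : B →ₐ[K] A)).comp (abs' (e.symm : A →ₐ[K] B))).f =
      (Pair.Map.id (absol K A)).f := h1
    have h4 : ((abs' (e : B →ₐ[K] A)).comp (abs' (e.symm : A →ₐ[K] B))).g =
      (Pair.Map.id (absol K A)).g := h2
    generalize (abs' (e : B →ₐ[K] A)).comp (abs' (e.symm : A →ₐ[K] B)) = x at h3 h4 ⊢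
    generalize Pair.Map.id (absol K A) = y at h3 h4 ⊢
    cases x
    cases y
    subst h3 h4
    rfl
  have h2 := hD.functorial.push_comp (abs' (e : B →ₐ[K] A)) (abs' (e.symm : A →ₐ[K] B)) i σ
  rw [h, hD.functorial.push_id] at h2
  refine ⟨D.pull (abs' (e.symm : A →ₐ[K] B)) i ω, D.push (abs' (e : B →ₐ[K] A)) i σ, ?_⟩
  rw [← cls_map, ← h2]

/-- Every formal effective period is the class of one symbol of an affine variety over `ℤ`. -/
lemma abs_int [Algebra.IsAlgebraic ℚ K] (x : Peff D) : ∃ (i : ℤ) (A : Type) (_ : CommRing A)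
    (_ : Algebra K A) (_ : Algebra.FiniteType K A), IntPres K A ∧ ∃ (ω : D.dR i (absol K A))
      (σ : D.sg i (absol K A)), x = cls D ⟨i, absol K A, ω, σ⟩ := by
  obtain ⟨i, A, _, _, _, ω, σ, rfl⟩ := abs_all hD x
  obtain ⟨A', _, _, hft, hA', p, e, hp, he, hpe⟩ := descend (K := K) A
  obtain ⟨w, h1, -⟩ := hD.disjoint p (Ideal.Quotient.mkₐ K (Ideal.span {1 - e})) hp
    (Ideal.Quotient.mkₐ_surjective K _) e he hpe Ideal.mk_ker i ω 0
  refine ⟨i, A', _, _, hft, hA', w, D.push (abs' p) i σ, ?_⟩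
  rw [cls_map, h1]

variable {ev : Peff D →ₗ[ℚ] ℂ} {m : Peff D → Peff D → Peff D} {t : Peff D}
  (hm : IsProduct D ev m t)

include hm

/-- A formal period times `(2 π i)²` is one symbol of a bilinear system. -/
theorem one_symbol [Algebra.IsAlgebraic ℚ K] (x : Peff D) : ∃ (a b c : ℕ)
    (E : Fin c → Finset (Fin a × Fin b)) (i₀ : Fin a) (j₀ : Fin b) (i : ℤ)
    (ω : D.dR i (bilPair K E i₀ j₀)) (σ : D.sg i (bilPair K E i₀ j₀)),
      (∀ l, (E l).card ≤ 3) ∧ m t (m t x) = cls D ⟨i, bilPair K E i₀ j₀, ω, σ⟩ := by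
  obtain ⟨i, A, _, _, _, hA, ω, σ, rfl⟩ := abs_int hD x
  have f1 : Algebra.FiniteType K (Lau A) := ft_laurent (R := K) A
  have f2 : Algebra.FiniteType K (Lau (Lau A)) := ft_laurent (R := K) (Lau A)
  obtain ⟨ω₁, σ₁, h1⟩ := hm.kunneth A i ω σ
  obtain ⟨ω₂, σ₂, h2⟩ := hm.kunneth (Lau A) (i + 1) ω₁ σ₁
  rw [h1, h2]
  obtain ⟨a, b, c, E, i₀, j₀, hE, ⟨e⟩⟩ := bil_int hA
  let e' : Bil K E i₀ j₀ ≃ₐ[K] Lau (Lau A) := e
  obtain ⟨ω', σ', h3⟩ := transport hD e' (i + 1 + 1) ω₂ σ₂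
  exact ⟨a, b, c, E, i₀, j₀, _, ω', σ', hE, h3⟩

/-- Kontsevich's period conjecture is a statement on the integrals over the cycles of the bilinear
systems. -/
theorem conjecture_iff [Algebra.IsAlgebraic ℚ K] (hev : IsEv D ev) : PeriodConjecture D ev m t ↔
    ∀ (a b c : ℕ) (E : Fin c → Finset (Fin a × Fin b)) (i₀ : Fin a) (j₀ : Fin b) (i : ℤ)
      (ω : D.dR i (bilPair K E i₀ j₀)) (σ : D.sg i (bilPair K E i₀ j₀)),
      (∀ l, (E l).card ≤ 3) → D.int ω σ = 0 →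
        Vanishes D m t (cls D ⟨i, bilPair K E i₀ j₀, ω, σ⟩) := by
  constructor
  · intro h a b c E i₀ j₀ i ω σ _ h0
    apply h
    rw [hev]
    exact h0
  · intro h x hx
    obtain ⟨a, b, c, E, i₀, j₀, i, ω, σ, hE, h1⟩ := one_symbol hD hm x
    have h2 : ev (m t (m t x)) = 0 := by
      rw [hm.ev_mul, hm.ev_mul, hx, mul_zero, mul_zero]
    rw [h1, hev] at h2
    obtain ⟨N, hN⟩ := h a b c E i₀ j₀ i ω σ hE h2
    rw [← h1] at hN
    refine ⟨N + 2, ?_⟩
    rw [Function.iterate_add_apply]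
    exact hN

end main

end Pool.Agent.V5helper77.KP
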