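import Pool.Agent.V5helper77.KP.Defs

/-!
# Every formal effective period is the class of one symbol of an affine variety
-/

set_option autoImplicit false

open CategoryTheory AlgebraicGeometry Pool.Agent.Y116.UV Pool.Agent.Q282.UZ

namespace Pool.Agent.V5helper77.KP

section rel

variable {K : Type} [Field K] [Algebra ℚ K] {D : Theory K}

lemma clsL_rel {x : Symbol D →₀ ℚ} (h : Rel D x) : clsL D x = 0 :=
  (Submodule.Quotient.mk_eq_zero _).mpr (Submodule.subset_span h)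

lemma cls_eq {s s' : Symbol D} (h : RelEq D s s') : cls D s = cls D s' := by
  have h1 := clsL_rel (Rel.eq h)
  rwa [map_sub, sub_eq_zero] at h1

lemma cls_add {s s' s'' : Symbol D} (h : RelAdd D s s' s'') : cls D s = cls D s' + cls D s'' := by
  have h1 := clsL_rel (Rel.add h)
  rwa [map_sub, map_add, sub_eq_zero] at h1

lemma cls_mul {q : ℚ} {s s' : Symbol D} (h : RelMul D q s s') : cls D s = q • cls D s' := by
  have h1 := clsL_rel (Rel.mul h)
  rwa [map_sub, map_smul, sub_eq_zero] at h1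

lemma cls_add_right {i : ℤ} {P : Pair K} (ω : D.dR i P) (σ σ' : D.sg i P) :
    cls D ⟨i, P, ω, σ + σ'⟩ = cls D ⟨i, P, ω, σ⟩ + cls D ⟨i, P, ω, σ'⟩ :=
  cls_add (.right i P ω σ σ')

lemma cls_smul_right {i : ℤ} {P : Pair K} (q : ℚ) (ω : D.dR i P) (σ : D.sg i P) :
    cls D ⟨i, P, ω, q • σ⟩ = q • cls D ⟨i, P, ω, σ⟩ :=
  cls_mul (.right i P q ω σ)

lemma cls_add_left {i : ℤ} {P : Pair K} (ω ω' : D.dR i P) (σ : D.sg i P) :
    cls D ⟨i, P, ω + ω', σ⟩ = cls D ⟨i, P, ω, σ⟩ + cls D ⟨i, P, ω', σ⟩ :=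
  cls_add (.left i P ω ω' σ)

lemma cls_map {P Q : Pair K} (f : Pair.Map P Q) {i : ℤ} (ω : D.dR i Q) (σ : D.sg i P) :
    cls D ⟨i, Q, ω, D.push f i σ⟩ = cls D ⟨i, P, D.pull f i ω, σ⟩ :=
  cls_eq (.map f i ω σ)

lemma cls_boundary (T : Triple K) {i : ℤ} (ω : D.dR i T.low) (σ : D.sg (i + 1) T.up) :
    cls D ⟨i, T.low, ω, D.db T i σ⟩ = cls D ⟨i + 1, T.up, D.bd T i ω, σ⟩ :=
  cls_eq (.boundary T i ω σ)

lemma cls_zero_left {i : ℤ} {P : Pair K} (σ : D.sg i P) :
    cls D ⟨i, P, (0 : D.dR i P), σ⟩ = 0 := by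
  have h := cls_add_left (D := D) (0 : D.dR i P) 0 σ
  rw [add_zero] at h
  exact left_eq_add.mp h

lemma cls_sub_right {i : ℤ} {P : Pair K} (ω : D.dR i P) (σ σ' : D.sg i P) :
    cls D ⟨i, P, ω, σ - σ'⟩ = cls D ⟨i, P, ω, σ⟩ - cls D ⟨i, P, ω, σ'⟩ := by
  have h := cls_add_right (D := D) ω (σ - σ') σ'
  rw [sub_add_cancel] at h
  rw [h, add_sub_cancel_right]

variable (D) in
/-- `x` is the class of a symbol of degree `i` of an affine variety. -/
def IsAbs (i : ℤ) (x : Peff D) : Prop :=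
  ∃ (A : Type) (_ : CommRing A) (_ : Algebra K A) (_ : Algebra.FiniteType K A)
    (ω : D.dR i (absol K A)) (σ : D.sg i (absol K A)), x = cls D ⟨i, absol K A, ω, σ⟩

end rel

/-! ### Fibre products -/

section fibre

variable {K : Type} [Field K] {A B C : Type} [CommRing A] [CommRing B] [CommRing C] [Algebra K A]
  [Algebra K B] [Algebra K C] (q₁ : A →ₐ[K] B) (q₂ : C →ₐ[K] B)

/-- the fibre product `A ×_B C` -/
abbrev Fib : Type := AlgHom.equalizer (q₁.comp (AlgHom.fst K A C)) (q₂.comp (AlgHom.snd K A C))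

/-- the projection -/
noncomputable def fib₁ : Fib q₁ q₂ →ₐ[K] A := (AlgHom.fst K A C).comp (Subalgebra.val _)

/-- the projection -/
noncomputable def fib₂ : Fib q₁ q₂ →ₐ[K] C := (AlgHom.snd K A C).comp (Subalgebra.val _)

lemma fib_comm : q₁.comp (fib₁ q₁ q₂) = q₂.comp (fib₂ q₁ q₂) := by
  ext x
  exact x.2

lemma fib₁_surj (h : Function.Surjective q₂) : Function.Surjective (fib₁ q₁ q₂) := by
  intro a
  obtain ⟨c, hc⟩ := h (q₁ a)
  exact ⟨⟨(a, c), hc.symm⟩, rfl⟩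

lemma fib₂_surj (h : Function.Surjective q₁) : Function.Surjective (fib₂ q₁ q₂) := by
  intro c
  obtain ⟨a, ha⟩ := h (q₂ c)
  exact ⟨⟨(a, c), ha⟩, rfl⟩

lemma fib_inf : RingHom.ker (fib₁ q₁ q₂) ⊓ RingHom.ker (fib₂ q₁ q₂) = ⊥ := by
  rw [eq_bot_iff]
  rintro ⟨⟨a, c⟩, h⟩ ⟨h1, h2⟩
  have h1' : a = 0 := h1
  have h2' : c = 0 := h2
  subst h1' h2'
  rfl

lemma fib_sup : RingHom.ker (q₁.comp (fib₁ q₁ q₂)) =
    RingHom.ker (fib₁ q₁ q₂) ⊔ RingHom.ker (fib₂ q₁ q₂) := by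
  apply le_antisymm
  · rintro ⟨⟨a, c⟩, h⟩ h1
    have h1' : q₁ a = 0 := h1
    have h2' : q₁ a = q₂ c := h
    have e1 : q₁ (0 : A) = q₂ c := by rw [← h2', h1', map_zero]
    have e2 : q₁ a = q₂ (0 : C) := by rw [h1', map_zero]
    have : (⟨(a, c), h⟩ : Fib q₁ q₂) = ⟨(0, c), e1⟩ + ⟨(a, 0), e2⟩ := by
      apply Subtype.ext
      change (a, c) = (0 + a, c + 0)
      rw [zero_add, add_zero]
    rw [this]
    exact Submodule.add_mem_sup (by exact (rfl : (0 : A) = 0)) (by exact (rfl : (0 : C) = 0))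
  · rw [sup_le_iff]
    constructor
    · intro x hx
      change q₁ (fib₁ q₁ q₂ x) = 0
      have : fib₁ q₁ q₂ x = 0 := hx
      rw [this, map_zero]
    · intro x hx
      rw [fib_comm]
      change q₂ (fib₂ q₁ q₂ x) = 0
      have : fib₂ q₁ q₂ x = 0 := hx
      rw [this, map_zero]

/-- The gluing of `Spec A` and an affine space along `Spec B` is of finite type. -/
lemma fib_ft (n : ℕ) (g : MvPolynomial (Fin n) K →ₐ[K] A) (hg : Function.Surjective g)
    [Algebra.FiniteType K A] : Algebra.FiniteType K (Fib q₁ (q₁.comp g)) := by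
  classical
  have hA : IsNoetherianRing A := Algebra.FiniteType.isNoetherianRing K A
  obtain ⟨F, hF⟩ := (isNoetherianRing_iff_ideal_fg A).mp hA (RingHom.ker q₁)
  have hq : ∀ f : F, q₁ f.1 = 0 := fun f => by
    have : (f.1 : A) ∈ RingHom.ker q₁ := by
      rw [← hF]
      exact Submodule.subset_span f.2
    exact this
  let y : F → Fib q₁ (q₁.comp g) := fun f => ⟨(f.1, 0), by
    change q₁ f.1 = (q₁.comp g) 0
    rw [hq f, map_zero]⟩
  let d : MvPolynomial (Fin n) K →ₐ[K] Fib q₁ (q₁.comp g) :=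
    AlgHom.codRestrict (g.prod (AlgHom.id K _)) _ fun c => rfl
  let S : Subalgebra K (Fib q₁ (q₁.comp g)) := d.range ⊔ Algebra.adjoin K (Set.range y)
  have hd : ∀ c, d c ∈ S := fun c => (le_sup_left : d.range ≤ S) ⟨c, rfl⟩
  have hy : ∀ f, y f ∈ S := fun f =>
    (le_sup_right : Algebra.adjoin K (Set.range y) ≤ S) (Algebra.subset_adjoin ⟨f, rfl⟩)
  have key : ∀ a : A, a ∈ RingHom.ker q₁ → ∃ h, (⟨(a, 0), h⟩ : Fib q₁ (q₁.comp g)) ∈ S := by
    intro a ha
    rw [← hF] at ha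
    refine Submodule.span_induction (p := fun a _ => ∃ h, (⟨(a, 0), h⟩ : Fib q₁ (q₁.comp g)) ∈ S)
      ?_ ?_ ?_ ?_ ha
    · intro f hf
      exact ⟨(y ⟨f, hf⟩).2, hy ⟨f, hf⟩⟩
    · exact ⟨(0 : Fib q₁ (q₁.comp g)).2, S.zero_mem⟩
    · rintro a b _ _ ⟨h1, h2⟩ ⟨h3, h4⟩
      have h5 := S.add_mem h2 h4
      have h6 : (⟨(a, 0), h1⟩ + ⟨(b, 0), h3⟩ : Fib q₁ (q₁.comp g)).1 = (a + b, 0) := by
        change (a + b, (0 : MvPolynomial (Fin n) K) + 0) = _
        rw [add_zero]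
      refine ⟨h6 ▸ (⟨(a, 0), h1⟩ + ⟨(b, 0), h3⟩ : Fib q₁ (q₁.comp g)).2, ?_⟩
      convert h5 using 1
      exact Subtype.ext h6.symm
    · rintro c a _ ⟨h1, h2⟩
      obtain ⟨c', rfl⟩ := hg c
      have h5 := S.mul_mem (hd c') h2
      have h6 : (d c' * ⟨(a, 0), h1⟩ : Fib q₁ (q₁.comp g)).1 = (g c' • a, 0) := by
        change (g c' * a, c' * 0) = _
        rw [mul_zero]
        rfl
      refine ⟨h6 ▸ (d c' * ⟨(a, 0), h1⟩ : Fib q₁ (q₁.comp g)).2, ?_⟩
      convert h5 using 1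
      exact Subtype.ext h6.symm
  have hS : S = ⊤ := by
    rw [eq_top_iff]
    rintro ⟨⟨a, c⟩, h⟩ -
    have h0 : q₁ a = q₁ (g c) := h
    have h1 : a - g c ∈ RingHom.ker q₁ := by
      rw [RingHom.mem_ker, map_sub, sub_eq_zero]
      exact h0
    obtain ⟨h2, h3⟩ := key _ h1
    have h4 := S.add_mem (hd c) h3
    have h5 : (⟨(a, c), h⟩ : Fib q₁ (q₁.comp g)) = d c + ⟨(a - g c, 0), h2⟩ := by
      apply Subtype.ext
      change (a, c) = (g c + (a - g c), c + 0)
      rw [add_zero, add_sub_cancel]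
    rw [h5]
    exact h4
  have hfg : S.FG := by
    apply Subalgebra.FG.sup
    · have : Algebra.FiniteType K d.range :=
        Algebra.FiniteType.of_surjective d.rangeRestrict d.rangeRestrict_surjective
      exact (Subalgebra.fg_iff_finiteType _).mpr this
    · exact ⟨(Set.finite_range y).toFinset, by rw [Set.Finite.coe_toFinset]⟩
  rw [hS] at hfg
  exact ⟨hfg⟩

end fibre

/-! ### One symbol -/

lemma ker_fst (K A B : Type) [Field K] [CommRing A] [CommRing B] [Algebra K A] [Algebra K B] :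
    RingHom.ker (AlgHom.fst K A B) = Ideal.span {((0 : A), (1 : B))} := by
  ext ⟨a, b⟩
  rw [Ideal.mem_span_singleton]
  constructor
  · intro h
    have h' : a = 0 := h
    exact ⟨(a, b), by simp [h']⟩
  · rintro ⟨⟨c, d⟩, h⟩
    have h' : a = 0 * c := congrArg Prod.fst h
    change a = 0
    rw [h', zero_mul]

lemma ker_snd (K A B : Type) [Field K] [CommRing A] [CommRing B] [Algebra K A] [Algebra K B] :
    RingHom.ker (AlgHom.snd K A B) = Ideal.span {1 - ((0 : A), (1 : B))} := by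
  ext ⟨a, b⟩
  rw [Ideal.mem_span_singleton]
  constructor
  · intro h
    have h' : b = 0 := h
    refine ⟨(a, b), Prod.ext ?_ ?_⟩
    · change a = (1 - 0) * a
      rw [sub_zero, one_mul]
    · change b = (1 - 1) * b
      rw [h', mul_zero]
  · rintro ⟨⟨c, d⟩, h⟩
    have h' : b = (1 - 1) * d := congrArg Prod.snd h
    change b = 0
    rw [h', sub_self, zero_mul]

section single

variable {K : Type} [Field K] [Algebra ℚ K] {D : Theory K} (hD : IsGeometric D)

include hD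

/-- Symbols of affine pairs are symbols of affine varieties, of the same degree. -/
lemma abs_pair {A B : Type} [CommRing A] [CommRing B] [Algebra K A] [Algebra K B]
    [Algebra.FiniteType K A] (p : A →ₐ[K] B) (hp : Function.Surjective p) (i : ℤ)
    (ω : D.dR i (apair p hp)) (σ : D.sg i (apair p hp)) : IsAbs D i (cls D ⟨i, apair p hp, ω, σ⟩) := by
  obtain ⟨n, g, hg⟩ := Algebra.FiniteType.iff_quotient_mvPolynomial''.mp
    (inferInstance : Algebra.FiniteType K A)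
  have hft := fib_ft p n g hg
  have hgp : Function.Surjective (p.comp g) := hp.comp hg
  obtain ⟨ω₁, rfl⟩ := hD.excision (fib₁ p (p.comp g)) (fib₂ p (p.comp g)) p (p.comp g)
    (fib₁_surj _ _ hgp) (fib₂_surj _ _ hp) hp hgp (fib_comm _ _) (fib_inf _ _) (fib_sup _ _) i ω
  rw [← cls_map]
  obtain ⟨σ₁, h1⟩ := hD.contractible n (fib₂ p (p.comp g)) (fib₂_surj _ _ hp) i
    (D.push (amap (hp := hp) (hp' := fib₂_surj _ _ hp) (fib₁ p (p.comp g)) (p.comp g)
      (fib_comm _ _)) i σ)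
  rw [← h1, cls_map]
  exact ⟨_, _, _, _, _, _, rfl⟩

/-- The degree can be raised. -/
lemma abs_succ {i : ℤ} {x : Peff D} (h : IsAbs D i x) : IsAbs D (i + 1) x := by
  obtain ⟨A, _, _, _, ω, σ, rfl⟩ := h
  obtain ⟨w, h1, h2⟩ := hD.disjoint (AlgHom.fst K A A) (AlgHom.snd K A A) (fun a => ⟨(a, 0), rfl⟩)
    (fun a => ⟨(0, a), rfl⟩) ((0 : A), (1 : A)) (by simp) (ker_fst K A A) (ker_snd K A A) i (0 : D.dR i (absol K A)) ω
  obtain ⟨τ, hτ⟩ := hD.interval A i σ
  have h3 := cls_boundary (D := D) (atriple (ends K A) (ends_surj K A)) (i := i) w τ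
  rw [hτ] at h3
  have h4 : cls D ⟨i, absol K A, ω, σ⟩ = cls D ⟨i + 1, (atriple (ends K A) (ends_surj K A)).up,
      D.bd (atriple (ends K A) (ends_surj K A)) i w, τ⟩ := by
    rw [← h3]
    have h5 := cls_sub_right (D := D) (P := absol K (A × A)) w (D.push (abs' (AlgHom.snd K A A)) i σ)
      (D.push (abs' (AlgHom.fst K A A)) i σ)
    rw [cls_map, cls_map, h1, h2, cls_zero_left, sub_zero] at h5
    exact h5.symm
  rw [h4]
  exact abs_pair hD (ends K A) (ends_surj K A) (i + 1) _ τ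

lemma abs_add_nat {i : ℤ} {x : Peff D} (h : IsAbs D i x) (n : ℕ) : IsAbs D (i + n) x := by
  induction n with
  | zero => simpa using h
  | succ n ih =>
    have h1 := abs_succ hD ih
    rwa [add_assoc] at h1

lemma abs_le {i j : ℤ} (hij : i ≤ j) {x : Peff D} (h : IsAbs D i x) : IsAbs D j x := by
  obtain ⟨n, hn⟩ := Int.le.dest hij
  have := abs_add_nat hD h n
  rwa [hn] at this

/-- Sums. -/
lemma abs_add {i : ℤ} {x y : Peff D} (hx : IsAbs D i x) (hy : IsAbs D i y) : IsAbs D i (x + y) := by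
  obtain ⟨A, _, _, _, ω, σ, rfl⟩ := hx
  obtain ⟨B, _, _, _, ω', σ', rfl⟩ := hy
  obtain ⟨w, h1, h2⟩ := hD.disjoint (AlgHom.fst K A B) (AlgHom.snd K A B) (fun a => ⟨(a, 0), rfl⟩)
    (fun a => ⟨(0, a), rfl⟩) ((0 : A), (1 : B)) (by simp) (ker_fst K A B) (ker_snd K A B) i ω ω'
  refine ⟨A × B, inferInstance, inferInstance, inferInstance, w,
    D.push (abs' (AlgHom.fst K A B)) i σ + D.push (abs' (AlgHom.snd K A B)) i σ', ?_⟩
  rw [cls_add_right, cls_map, cls_map, h1, h2]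

omit hD in
lemma abs_smul {i : ℤ} {x : Peff D} (q : ℚ) (hx : IsAbs D i x) : IsAbs D i (q • x) := by
  obtain ⟨A, _, _, _, ω, σ, rfl⟩ := hx
  exact ⟨A, _, _, inferInstance, ω, q • σ, (cls_smul_right q ω σ).symm⟩

omit hD in
lemma abs_zero : IsAbs D 0 (0 : Peff D) :=
  ⟨K, inferInstance, inferInstance, inferInstance, 0, 0, (cls_zero_left _).symm⟩

/-- Every formal effective period is the class of one symbol of an affine variety. -/
theorem abs_all (x : Peff D) : ∃ i, IsAbs D i x := by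
  have key : ∀ x ∈ Submodule.span ℚ {x | IsAffineClass D x}, ∃ i, IsAbs D i x := by
    intro x hx
    refine Submodule.span_induction (p := fun x _ => ∃ i, IsAbs D i x) ?_ ?_ ?_ ?_ hx
    · rintro _ ⟨A, B, _, _, _, _, _, p, hp, i, ω, σ, rfl⟩
      exact ⟨i, abs_pair hD p hp i ω σ⟩
    · exact ⟨0, abs_zero⟩
    · rintro x y _ _ ⟨i, hi⟩ ⟨j, hj⟩
      exact ⟨max i j, abs_add hD (abs_le hD (le_max_left i j) hi) (abs_le hD (le_max_right i j) hj)⟩
    · rintro q x _ ⟨i, hi⟩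
      exact ⟨i, abs_smul q hi⟩
  apply key
  obtain ⟨y, rfl⟩ := Submodule.mkQ_surjective _ x
  change clsL D y ∈ _
  induction y using Finsupp.induction_linear with
  | zero =>
    rw [map_zero]
    exact Submodule.zero_mem _
  | add y z hy hz =>
    rw [map_add]
    exact Submodule.add_mem _ hy hz
  | single s q =>
    have h : clsL D (Finsupp.single s q) = q • cls D s := by
      rw [cls, gen, ← map_smul, Finsupp.smul_single, smul_eq_mul, mul_one]
    rw [h]
    exact Submodule.smul_mem _ _ (hD.affine s)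

end single

end Pool.Agent.V5helper77.KP
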