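import Pool.Agent.V5helper77.KP.Desc
import Pool.Agent.V5helper77.KP.Single

/-!
# Bilinear systems
-/

set_option autoImplicit false

open MvPolynomial Pool.Agent.Y116.UV Pool.Agent.Q282.UZ Pool.Agent.V5helper77.OP

namespace Pool.Agent.V5helper77.KP

section short

variable {K : Type} [Field K] {A : Type} [CommRing A] [Algebra K A]

lemma int_fin (h : IntPres K A) : ∃ (n : ℕ) (π : MvPolynomial (Fin n) K →ₐ[K] A)
    (F : Finset (MvPolynomial (Fin n) K)), Function.Surjective π ∧
      Ideal.span (F : Set (MvPolynomial (Fin n) K)) = RingHom.ker π ∧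
        ∀ f ∈ F, ∃ f₀ : MvPolynomial (Fin n) ℤ, f = map (Int.castRingHom K) f₀ := by
  classical
  obtain ⟨V, _, π, T, hs, hk⟩ := h
  have := Fintype.ofFinite V
  let e : V ≃ Fin (Fintype.card V) := Fintype.equivFin V
  let E : MvPolynomial V K ≃ₐ[K] MvPolynomial (Fin (Fintype.card V)) K := renameEquiv K e
  refine ⟨Fintype.card V, π.comp (E.symm : _ →ₐ[K] _),
    T.image fun t => map (Int.castRingHom K) (rename e t), ?_, ?_, ?_⟩
  · intro a
    obtain ⟨p, rfl⟩ := hs a
    refine ⟨E p, ?_⟩
    change π (E.symm (E p)) = π p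
    rw [E.symm_apply_apply]
  · let E1 : MvPolynomial V K →+* MvPolynomial (Fin (Fintype.card V)) K :=
      (rename e : MvPolynomial V K →ₐ[K] _).toRingHom
    have h1 : ((T.image fun t => map (Int.castRingHom K) (rename e t) : Finset _) :
        Set (MvPolynomial (Fin (Fintype.card V)) K)) = E1 '' (map (Int.castRingHom K) '' T) := by
      rw [Finset.coe_image, Set.image_image]
      apply Set.image_congr
      intro t _
      exact map_rename _ _ _
    rw [h1, ← Ideal.map_span, ← hk]
    ext p
    constructor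
    · intro hp
      obtain ⟨q, hq, rfl⟩ := (Ideal.mem_map_iff_of_surjective E1
        (fun p => ⟨E.symm p, E.apply_symm_apply p⟩)).mp hp
      change π (E.symm (E q)) = 0
      rw [E.symm_apply_apply]
      exact hq
    · intro hp
      have h2 : E.symm p ∈ RingHom.ker π := hp
      have h3 := Ideal.mem_map_of_mem E1 h2
      have h4 : E1 (E.symm p) = p := E.apply_symm_apply p
      rwa [h4] at h3
  · intro f hf
    obtain ⟨t, _, rfl⟩ := Finset.mem_image.mp hf
    exact ⟨_, rfl⟩

lemma reach_fin (n : ℕ) (F : Finset (MvPolynomial (Fin n) K))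
    (hF : ∀ f ∈ F, ∃ f₀ : MvPolynomial (Fin n) ℤ, f = map (Int.castRingHom K) f₀) :
    ∃ P : SP K (MvPolynomial (Fin n) K), (base K n).marks ⊆ P.marks ∧ ∀ f ∈ F, f ∈ P.marks := by
  classical
  induction F using Finset.induction_on with
  | empty => exact ⟨base K n, le_rfl, by simp⟩
  | insert f F _ ih =>
    obtain ⟨P, h1, h2⟩ := ih fun f hf => hF f (Finset.mem_insert_of_mem hf)
    obtain ⟨f₀, hf₀⟩ := hF f (Finset.mem_insert_self _ _)
    obtain ⟨P', h3, h4⟩ := reach_map (R := K) n f₀ P h1
    refine ⟨P', h1.trans h3, fun g hg => ?_⟩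
    rcases Finset.mem_insert.mp hg with rfl | hg
    · rw [hf₀]
      exact h4
    · exact h3 (h2 g hg)

/-- A presentation by sums of at most three monomials. -/
theorem short_int (h : IntPres K A) : ∃ (n : ℕ) (φ : MvPolynomial (Fin n) K →ₐ[K] A)
    (G : Finset (MvPolynomial (Fin n) K)), Function.Surjective φ ∧
      RingHom.ker φ = Ideal.span (G : Set (MvPolynomial (Fin n) K)) ∧ ∀ g ∈ G, Short g := by
  classical
  obtain ⟨n, π, F, hπ, hF, hZ⟩ := int_fin h
  obtain ⟨P, hP0, hP⟩ := reach_fin n F hZ
  have hne : Nonempty P.V := by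
    obtain ⟨v, _⟩ := hP0 (base_neg n)
    exact ⟨v⟩
  choose! v hv using hP
  let Q : SP K A :=
    { V := P.V
      fin := P.fin
      φ := π.comp P.φ
      G := P.G ∪ (fun f => X (v f)) '' (F : Set (MvPolynomial (Fin n) K))
      finG := P.finG.union (F.finite_toSet.image _)
      surj := fun a => by
        obtain ⟨b, rfl⟩ := hπ a
        obtain ⟨c, rfl⟩ := P.surj b
        exact ⟨c, rfl⟩
      ker := by
        have h1 : RingHom.ker (π.comp P.φ) = Ideal.comap (P.φ : MvPolynomial P.V K →+* _)
            (RingHom.ker π) := rfl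
        have h2 : RingHom.ker π = Ideal.map (P.φ : MvPolynomial P.V K →+* _)
            (Ideal.span ((fun f => X (v f)) '' (F : Set (MvPolynomial (Fin n) K)))) := by
          rw [Ideal.map_span, ← hF, Set.image_image]
          congr 1
          ext x
          constructor
          · intro hx
            exact ⟨x, hx, hv x hx⟩
          · rintro ⟨y, hy, rfl⟩
            have : (P.φ : MvPolynomial P.V K →+* _) (X (v y)) = y := hv y hy
            change (P.φ : MvPolynomial P.V K →+* MvPolynomial (Fin n) K) (X (v y)) ∈ _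
            rw [this]
            exact hy
        have h3 : RingHom.ker (P.φ : MvPolynomial P.V K →+* MvPolynomial (Fin n) K) =
            Ideal.span P.G := P.ker
        rw [h1, h2, Ideal.comap_map_of_surjective'
          (P.φ : MvPolynomial P.V K →+* MvPolynomial (Fin n) K) P.surj, Ideal.span_union, sup_comm,
          h3]
      short := by
        rintro g (hg | ⟨f, _, rfl⟩)
        · exact P.short g hg
        · refine ⟨{Finsupp.single (v f) 1}, by simp, ?_⟩
          rw [ms, Finset.sum_singleton]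
          rfl }
  exact Q.toFin

/-- `Spec A × 𝔾_m × 𝔾_m` is given by bilinear equations with at most three terms. -/
theorem bil_int [Algebra.FiniteType K A] (h : IntPres K A) : ∃ (a b c : ℕ)
    (E : Fin c → Finset (Fin a × Fin b)) (i₀ : Fin a) (j₀ : Fin b), (∀ l, (E l).card ≤ 3) ∧
      Nonempty (Bil K E i₀ j₀ ≃ₐ[K] Tor A) := by
  classical
  obtain ⟨n, φ, G, hs, hK, hc⟩ := short_int h
  let D : ℕ := 1 + ∑ g ∈ G, ∑ m ∈ g.support, m.degree
  have hD : 1 ≤ D := by omega
  have hd : ∀ g ∈ G, ∀ m ∈ g.support, m.degree ≤ D := by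
    intro g hg m hm
    have h1 : m.degree ≤ ∑ m ∈ g.support, m.degree :=
      Finset.single_le_sum (f := fun m : Fin n →₀ ℕ => m.degree) (fun _ _ => Nat.zero_le _) hm
    have h2 : ∑ m ∈ g.support, m.degree ≤ ∑ g ∈ G, ∑ m ∈ g.support, m.degree :=
      Finset.single_le_sum (f := fun g : MvPolynomial (Fin n) K => ∑ m ∈ g.support, m.degree)
        (fun _ _ => Nat.zero_le _) hg
    omega
  have hG : ∀ g ∈ G, φ g = 0 := by
    intro g hg
    have : g ∈ RingHom.ker φ := by
      rw [hK]
      exact Ideal.subset_span hg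
    exact this
  choose E hE hT using eqs_few hD G hd hc
  let e₁ := (Fintype.equivFin (Mon n D)).symm
  let e₃ := (Fintype.equivFin (Mon n D ⊕ (Mon n D × Fin n) ⊕ G)).symm
  let E' : Fin (Fintype.card (Mon n D ⊕ (Mon n D × Fin n) ⊕ G)) →
      Finset (Fin (Fintype.card (Mon n D)) × Fin (Fintype.card (Mon n D))) := fun l =>
    (E (e₃ l)).map (Equiv.prodCongr e₁.symm e₁.symm).toEmbedding
  let f := fewRename (R := K) e₁ e₁ e₃ E
  have h2 : eqs hD G = fun k => few K (E k) := funext hT
  have h3 : eqI hD G = Ideal.span (Set.range fun k => few K (E k)) := by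
    rw [eqI, h2]
  let i₀ := e₁.symm (mo n D)
  have hf : f (Ideal.Quotient.mk _ (X (Sum.inl i₀) * X (Sum.inr i₀))) =
      Ideal.Quotient.mk _ (uu K (mo n D) * vv K (mo n D)) := by
    change Ideal.Quotient.mk _ (renameEquiv K (Equiv.sumCongr e₁ e₁) _) = _
    rw [renameEquiv_apply, map_mul, rename_X, rename_X]
    simp only [Equiv.sumCongr_apply, Sum.map_inl, Sum.map_inr, i₀, Equiv.apply_symm_apply]
    rfl
  refine ⟨_, _, _, E', i₀, i₀, fun l => by rw [Finset.card_map]; exact hE _, ⟨?_⟩⟩
  refine AlgEquiv.trans ?_ (coneEquiv hD G φ hG hd hs hK)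
  let f' : Sys K E' ≃ₐ[K] Cone hD G := f.trans (Ideal.quotientEquivAlgOfEq K h3.symm)
  have hf' : f' (xy K E' i₀ i₀) = cw hD G :=
    (congrArg (Ideal.quotientEquivAlgOfEq K h3.symm) hf).trans rfl
  let g : Localization.Away (xy K E' i₀ i₀) ≃ₐ[K] LCone hD G :=
    IsLocalization.algEquivOfAlgEquiv _ _ f' (M := Submonoid.powers (xy K E' i₀ i₀))
      (T := Submonoid.powers (cw hD G)) (by
        rw [Submonoid.map_powers]
        exact congrArg Submonoid.powers hf')
  exact g

end short

end Pool.Agent.V5helper77.KP
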